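import Pool.Agent.K1H60.DF.Red1A

/-! Project DF, piece RED1: a nearly minimal vector of the lattice generated by `x` and `y` over the
integers of `F`. -/

set_option autoImplicit false
set_option linter.unusedSectionVars false
set_option linter.style.haveILetI false
set_option linter.unusedVariables false

namespace Pool.Agent.K1H60.DF

open Module NumberField
open Pool.Agent.K1H88 (DP.Emb DP.cont DP.pl)
open Pool.Agent.K1H88.DF
open Pool.Agent.K1H88

section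
variable {F : Type} [Field F] [NumberField F] {ι : Type} [Fintype ι] {E : ι → Type}
  [∀ k, Field (E k)] [∀ k, NumberField (E k)] [∀ k, Algebra F (E k)]

theorem smul_apply_emb (u : F →+* ℂ) (i : EmbU F E u) (α β : F) (x y : ∀ k, E k) :
    i.1.2 ((α • x + β • y) i.1.1) = u α * i.1.2 (x i.1.1) + u β * i.1.2 (y i.1.1) := by
  have h : ∀ a : F, i.1.2 (algebraMap F (E i.1.1) a) = u a :=
    fun a => congrArg (fun f => f a) i.2
  rw [Pi.add_apply, Pi.smul_apply, Pi.smul_apply, Algebra.smul_def, Algebra.smul_def, map_add,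
    map_mul, map_mul, h, h]

/-- the vectors of the lattice are not `0` -/
theorem comb_ne_zero (hC : S_CARD) (x y : ∀ k, E k) (hn : 3 ≤ deg F E) (hD : Distinct F E x y)
    (α β : F) (h : α ≠ 0 ∨ β ≠ 0) : ∃ k, (α • x + β • y) k ≠ 0 := by
  by_contra hall
  push Not at hall
  obtain ⟨u⟩ : Nonempty (F →+* ℂ) := inferInstance
  have h1 : 1 < Fintype.card (EmbU F E u) := by
    rw [hC F ι E ℂ u]; omega
  obtain ⟨i, j, hij⟩ := Fintype.exists_pair_of_one_lt_card h1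
  have h2 := smul_apply_emb u i α β x y
  have h3 := smul_apply_emb u j α β x y
  rw [hall, map_zero] at h2 h3
  have h4 := hD u i j hij
  have h5 : u α * DP.pl E x y i.1 j.1 = 0 := by
    unfold DP.pl
    linear_combination (-j.1.2 (y j.1.1)) * h2 + i.1.2 (y i.1.1) * h3
  have h6 : u β * DP.pl E x y i.1 j.1 = 0 := by
    unfold DP.pl
    linear_combination (j.1.2 (x j.1.1)) * h2 - i.1.2 (x i.1.1) * h3
  rcases h with h | h
  · exact (mul_ne_zero ((map_ne_zero u).2 h) h4) h5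
  · exact (mul_ne_zero ((map_ne_zero u).2 h) h4) h6

theorem comb_integral (x y : ∀ k, E k) (hi : ∀ k, IsIntegral ℤ (x k) ∧ IsIntegral ℤ (y k))
    (α β : F) (hα : IsIntegral ℤ α) (hβ : IsIntegral ℤ β) (k : ι) :
    IsIntegral ℤ ((α • x + β • y) k) := by
  rw [Pi.add_apply, Pi.smul_apply, Pi.smul_apply, Algebra.smul_def, Algebra.smul_def]
  exact ((hα.algebraMap).mul (hi k).1).add ((hβ.algebraMap).mul (hi k).2)

/-- existence of a nearly minimal vector -/
theorem exists_near_min (hC : S_CARD) (x y : ∀ k, E k) (ρ : ι → ℝ) (hn : 3 ≤ deg F E)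
    (hD : Distinct F E x y) (hi : ∀ k, IsIntegral ℤ (x k) ∧ IsIntegral ℤ (y k))
    (hρ : ∀ k, 0 < ρ k) :
    ∃ α₀ β₀ : F, IsIntegral ℤ α₀ ∧ IsIntegral ℤ β₀ ∧ (α₀ ≠ 0 ∨ β₀ ≠ 0) ∧
      ∀ α β : F, IsIntegral ℤ α → IsIntegral ℤ β → (α ≠ 0 ∨ β ≠ 0) →
        ∏ u : F →+* ℂ, nu F E ρ (α₀ • x + β₀ • y) u ≤
          2 * ∏ u : F →+* ℂ, nu F E ρ (α • x + β • y) u := by
  classical
  set f : F → F → ℝ := fun α β => ∏ u : F →+* ℂ, nu F E ρ (α • x + β • y) u with hf
  let S : Set ℝ := {t | ∃ α β : F, IsIntegral ℤ α ∧ IsIntegral ℤ β ∧ (α ≠ 0 ∨ β ≠ 0) ∧ t = f α β}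
  set R : ℝ := ∑ k, ρ k with hR
  have hRk : ∀ k, ρ k ≤ R := fun k =>
    Finset.single_le_sum (f := ρ) (fun j _ => (hρ j).le) (Finset.mem_univ k)
  have hι : Nonempty ι := by
    by_contra hne
    rw [not_nonempty_iff] at hne
    have : deg F E = 0 := by
      unfold deg
      exact Finset.sum_of_isEmpty _ 
    omega
  obtain ⟨k₀⟩ := hι
  have hR0 : 0 < R := (hρ k₀).trans_le (hRk k₀)
  set c : ℝ := (R ^ Fintype.card (F →+* ℂ))⁻¹ with hc
  have hc0 : 0 < c := inv_pos.2 (pow_pos hR0 _)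
  have hlow : ∀ t ∈ S, c ≤ t := by
    rintro t ⟨α, β, hα, hβ, h0, rfl⟩
    obtain ⟨k, hk⟩ := comb_ne_zero hC x y hn hD α β h0
    have h1 := one_le_nu (F := F) ρ hρ (α • x + β • y) k hk (comb_integral x y hi α β hα hβ k)
    rw [hc, inv_le_iff_one_le_mul₀ (pow_pos hR0 _)]
    refine h1.trans (mul_le_mul_of_nonneg_left ?_ (Finset.prod_nonneg fun u _ => nu_nonneg ρ hρ _ u))
    exact pow_le_pow_left₀ (hρ k).le (hRk k) _
  have hne : S.Nonempty := ⟨f 1 0, 1, 0, isIntegral_one, isIntegral_zero, Or.inl one_ne_zero, rfl⟩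
  have hbd : BddBelow S := ⟨c, fun t ht => hlow t ht⟩
  have h1 : c ≤ sInf S := le_csInf hne hlow
  have h2 : sInf S < 2 * sInf S := by linarith
  obtain ⟨t, ht, h3⟩ := exists_lt_of_csInf_lt hne h2
  obtain ⟨α, β, hα, hβ, h0, rfl⟩ := ht
  refine ⟨α, β, hα, hβ, h0, fun α' β' hα' hβ' h0' => ?_⟩
  have h4 : sInf S ≤ f α' β' := csInf_le hbd ⟨α', β', hα', hβ', h0', rfl⟩
  change f α β ≤ 2 * f α' β'
  linarith

end

/-- the norm of the ideal generated by two integers is in the ideal -/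
theorem exists_bezout {F : Type} [Field F] [NumberField F] (hI : DP.S_IDEAL) (a b : F)
    (ha : IsIntegral ℤ a) (hb : IsIntegral ℤ b) (h0 : a ≠ 0 ∨ b ≠ 0) :
    ∃ (p q : F) (Δ : ℕ), IsIntegral ℤ p ∧ IsIntegral ℤ q ∧ a * p + b * q = Δ ∧ 1 ≤ Δ ∧
      DP.cont F a b * Δ = 1 := by
  obtain ⟨a', rfl⟩ : ∃ a' : 𝓞 F, (a' : F) = a := ⟨⟨a, ha⟩, rfl⟩
  obtain ⟨b', rfl⟩ : ∃ b' : 𝓞 F, (b' : F) = b := ⟨⟨b, hb⟩, rfl⟩
  have h1 := hI F (a' : F) (b' : F) h0
  have h2 : FractionalIdeal.spanSingleton (nonZeroDivisors (𝓞 F)) (a' : F) +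
      FractionalIdeal.spanSingleton (nonZeroDivisors (𝓞 F)) (b' : F) =
      ((Ideal.span {a', b'} : Ideal (𝓞 F)) : FractionalIdeal (nonZeroDivisors (𝓞 F)) F) := by
    rw [Ideal.span_insert, FractionalIdeal.coeIdeal_sup,
      FractionalIdeal.coeIdeal_span_singleton, FractionalIdeal.coeIdeal_span_singleton]
  rw [h2, FractionalIdeal.coeIdeal_absNorm] at h1
  have h3 : ((Ideal.absNorm (Ideal.span {a', b'}) : ℕ) : 𝓞 F) ∈ Ideal.span {a', b'} :=
    Ideal.absNorm_mem _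
  rw [Ideal.mem_span_pair] at h3
  obtain ⟨p, q, hpq⟩ := h3
  refine ⟨p, q, Ideal.absNorm (Ideal.span {a', b'}), p.2, q.2, ?_, ?_, ?_⟩
  · have h4 := congrArg (fun t : 𝓞 F => (t : F)) hpq
    simp only [map_add, map_mul, map_natCast] at h4
    rw [← h4]
    ring
  · rw [Nat.one_le_iff_ne_zero]
    intro h5
    rw [h5] at h1
    simp at h1
  · exact_mod_cast h1

theorem t_RED1 (hC : S_CARD) (hI : DP.S_IDEAL) (hS : DP.S_SCALE) (hP : S_PF) : S_RED1 := by
  classical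
  intro F _ _
  obtain ⟨C, hC1, hSC⟩ := hS F
  set d := finrank ℚ F with hd
  have hd0 : 0 < d := finrank_pos
  have hdcard : Fintype.card (F →+* ℂ) = d := NumberField.Embeddings.card F ℂ
  have hC0 : 0 < C := by linarith
  refine ⟨C ^ d, ⌈2 * C ^ (d + 1)⌉₊, one_le_pow₀ hC1, ?_⟩
  intro ι _ E _ _ _ x y ρ hn hD hi hρ
  have hne : ∀ v : F →+* ℂ, Nonempty (EmbU F E v) := by
    intro v
    rw [← Fintype.card_pos_iff, hC F ι E ℂ v]
    omega
  obtain ⟨α₀, β₀, hα₀, hβ₀, h00, hmin⟩ := exists_near_min hC x y ρ hn hD hi hρ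
  set z₀ := α₀ • x + β₀ • y with hz₀
  obtain ⟨k₀, hk₀⟩ := comb_ne_zero hC x y hn hD α₀ β₀ h00
  have hpos : ∀ u : F →+* ℂ, 0 < nu F E ρ z₀ u := fun u => nu_pos ρ hρ z₀ u k₀ hk₀
  set N₀ : ℝ := ∏ u : F →+* ℂ, nu F E ρ z₀ u with hN₀
  have hN₀pos : 0 < N₀ := Finset.prod_pos fun u _ => hpos u
  -- the first scaling
  obtain ⟨e, he0, hei, -, hes, hec⟩ := hSC 1 0 (Or.inl one_ne_zero) (fun u => nu F E ρ z₀ u) hpos
    (fun u => nu_conj ρ z₀ u hne)
  rw [mul_one] at hei hec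
  rw [mul_zero] at hec
  have hcont1 : DP.cont F 1 0 = 1 := by
    have h := hP F 1 one_ne_zero
    simpa using h
  simp only [hcont1, one_mul] at hes
  rw [← hN₀] at hes
  have hPe := hP F e he0
  set Pe : ℝ := ∏ u : F →+* ℂ, ‖u e‖ with hPe'
  have hPe1 : 1 ≤ Pe := one_le_prod_norm e hei he0
  have hPeC : Pe ≤ C := by
    have : Pe * 1 ≤ Pe * (C * DP.cont F e 0) := mul_le_mul_of_nonneg_left hec (by linarith)
    nlinarith
  -- the vector `z₁`
  set a := e * α₀ with ha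
  set b := e * β₀ with hb
  have hai : IsIntegral ℤ a := hei.mul hα₀
  have hbi : IsIntegral ℤ b := hei.mul hβ₀
  have hab : a ≠ 0 ∨ b ≠ 0 := h00.imp (mul_ne_zero he0) (mul_ne_zero he0)
  have hz₁ : a • x + b • y = e • z₀ := by
    rw [hz₀, smul_add, smul_smul, smul_smul]
  have hnu1 : ∀ u : F →+* ℂ, nu F E ρ (a • x + b • y) u = ‖u e‖ * nu F E ρ z₀ u := by
    intro u
    rw [hz₁, nu_smul]
  have hprod1 : ∏ u : F →+* ℂ, nu F E ρ (a • x + b • y) u = Pe * N₀ := by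
    rw [Finset.prod_congr rfl fun u _ => hnu1 u, Finset.prod_mul_distrib]
  obtain ⟨m, hm0, hm⟩ : ∃ m : ℝ, 0 < m ∧ m ^ d = N₀ := by
    refine ⟨N₀ ^ (1 / (d : ℝ)), Real.rpow_pos_of_pos hN₀pos _, ?_⟩
    rw [← Real.rpow_natCast, ← Real.rpow_mul hN₀pos.le, one_div,
      inv_mul_cancel₀ (by exact_mod_cast hd0.ne'), Real.rpow_one]
  have hup : ∀ u : F →+* ℂ, nu F E ρ (a • x + b • y) u ≤ C * m := by
    intro u
    have h := hes u
    rw [← hm, ← mul_pow] at h
    rw [hnu1]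
    exact le_of_pow_le_pow_left₀ hd0.ne' (by positivity) h
  have hlo : ∀ u : F →+* ℂ, m / C ^ (d - 1) ≤ nu F E ρ (a • x + b • y) u := by
    intro u
    have h1 : Pe * N₀ = nu F E ρ (a • x + b • y) u *
        ∏ v ∈ Finset.univ.erase u, nu F E ρ (a • x + b • y) v := by
      rw [← hprod1, Finset.mul_prod_erase _ _ (Finset.mem_univ u)]
    have h2 : ∏ v ∈ Finset.univ.erase u, nu F E ρ (a • x + b • y) v ≤ (C * m) ^ (d - 1) := by
      calc ∏ v ∈ Finset.univ.erase u, nu F E ρ (a • x + b • y) v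
          ≤ ∏ v ∈ Finset.univ.erase u, (C * m) :=
            Finset.prod_le_prod (fun v _ => nu_nonneg ρ hρ _ v) fun v _ => hup v
        _ = (C * m) ^ (d - 1) := by
            rw [Finset.prod_const, Finset.card_erase_of_mem (Finset.mem_univ u), Finset.card_univ,
              hdcard]
    have h3 : N₀ ≤ nu F E ρ (a • x + b • y) u * (C * m) ^ (d - 1) := by
      have h4 : N₀ ≤ Pe * N₀ := le_mul_of_one_le_left hN₀pos.le hPe1
      rw [h1] at h4
      exact h4.trans (mul_le_mul_of_nonneg_left h2 (nu_nonneg ρ hρ _ u))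
    rw [div_le_iff₀ (pow_pos hC0 _)]
    rw [← hm, mul_pow] at h3
    have h5 : m ^ d = m ^ (d - 1) * m := by
      rw [← pow_succ]; congr 1; omega
    rw [h5] at h3
    have h6 : 0 < m ^ (d - 1) := pow_pos hm0 _
    refine le_of_mul_le_mul_left ?_ h6
    calc m ^ (d - 1) * m ≤ _ := h3
      _ = _ := by ring
  set μ : ℝ := m / C ^ (d - 1) with hμ
  have hμ0 : 0 < μ := div_pos hm0 (pow_pos hC0 _)
  have hCm : C * m = C ^ d * μ := by
    have h5 : C ^ d = C ^ (d - 1) * C := by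
      rw [← pow_succ]; congr 1; omega
    rw [hμ, h5]
    field_simp
  have hμm : μ ≤ m := div_le_self hm0.le (one_le_pow₀ hC1)
  -- the second scaling
  obtain ⟨f, hf0, hfa, hfb, hfs, -⟩ := hSC a b hab (fun _ => 1) (fun _ => one_pos) (fun _ => rfl)
  have hcpos : 0 < DP.cont F a b := by
    obtain ⟨p, q, Δ, -, -, -, h1, h2⟩ := exists_bezout hI a b hai hbi hab
    by_contra hneg
    rw [not_lt] at hneg
    have : DP.cont F a b * Δ ≤ 0 := mul_nonpos_of_nonpos_of_nonneg hneg (Nat.cast_nonneg _)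
    linarith
  have hPf : ∏ u : F →+* ℂ, ‖u f‖ ≤ C ^ d * DP.cont F a b := by
    have h1 : (∏ u : F →+* ℂ, ‖u f‖) ^ d ≤ (C ^ d * DP.cont F a b) ^ d := by
      rw [← Finset.prod_pow]
      calc ∏ u : F →+* ℂ, ‖u f‖ ^ d ≤ ∏ u : F →+* ℂ, (C ^ d * DP.cont F a b) := by
            refine Finset.prod_le_prod (fun u _ => by positivity) fun u _ => ?_
            have h := hfs u
            simpa using h
        _ = (C ^ d * DP.cont F a b) ^ d := by
            rw [Finset.prod_const, Finset.card_univ, hdcard]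
    exact le_of_pow_le_pow_left₀ hd0.ne' (by positivity) h1
  have hkey : 1 ≤ 2 * C ^ (d + 1) * DP.cont F a b := by
    have hfab : f * a ≠ 0 ∨ f * b ≠ 0 := hab.imp (mul_ne_zero hf0) (mul_ne_zero hf0)
    have h1 := hmin (f * a) (f * b) hfa hfb hfab
    have h2 : (f * a) • x + (f * b) • y = f • (a • x + b • y) := by
      rw [smul_add, smul_smul, smul_smul]
    have h3 : ∏ u : F →+* ℂ, nu F E ρ ((f * a) • x + (f * b) • y) u =
        (∏ u : F →+* ℂ, ‖u f‖) * (Pe * N₀) := by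
      rw [h2, Finset.prod_congr rfl fun u _ => nu_smul ρ f (a • x + b • y) u,
        Finset.prod_mul_distrib, hprod1]
    rw [h3] at h1
    have h4 : (∏ u : F →+* ℂ, ‖u f‖) * (Pe * N₀) ≤ (C ^ d * DP.cont F a b) * (C * N₀) := by
      refine mul_le_mul hPf (mul_le_mul_of_nonneg_right hPeC hN₀pos.le) (by positivity) (by positivity)
    have h5 : N₀ * 1 ≤ N₀ * (2 * C ^ (d + 1) * DP.cont F a b) := by
      calc N₀ * 1 = N₀ := mul_one _
        _ ≤ 2 * ((C ^ d * DP.cont F a b) * (C * N₀)) := by linarith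
        _ = _ := by ring
    exact le_of_mul_le_mul_left h5 hN₀pos
  obtain ⟨p, q, Δ, hp, hq, hΔ, hΔ1, hΔc⟩ := exists_bezout hI a b hai hbi hab
  refine ⟨a, b, -q, p, Δ, μ, hai, hbi, hq.neg, hp, ?_, hΔ1, ?_, hμ0, ?_, ?_, ?_⟩
  · rw [← hΔ]; ring
  · have h1 : (Δ : ℝ) ≤ 2 * C ^ (d + 1) := by
      have h2 : (Δ : ℝ) * 1 ≤ Δ * (2 * C ^ (d + 1) * DP.cont F a b) :=
        mul_le_mul_of_nonneg_left hkey (Nat.cast_nonneg _)
      calc (Δ : ℝ) = Δ * 1 := (mul_one _).symm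
        _ ≤ _ := h2
        _ = 2 * C ^ (d + 1) * (DP.cont F a b * Δ) := by ring
        _ = _ := by rw [hΔc, mul_one]
    exact_mod_cast h1.trans (Nat.le_ceil _)
  · intro i
    have h1 := le_nu' ρ hρ (a • x + b • y) (i.2.comp (algebraMap F (E i.1))) ⟨i, rfl⟩
    have h2 := hup (i.2.comp (algebraMap F (E i.1)))
    calc ‖i.2 ((a • x + b • y) i.1)‖ ≤ _ := h1
      _ ≤ (C * m) * ρ i.1 := mul_le_mul_of_nonneg_right h2 (hρ _).le
      _ = C ^ d * (μ * ρ i.1) := by rw [hCm]; ring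
  · intro u
    haveI := hne u
    obtain ⟨i, hi'⟩ := exists_nu ρ (a • x + b • y) u
    refine ⟨i, ?_⟩
    have h1 := hlo u
    rw [hi', le_div_iff₀ (hρ _)] at h1
    exact h1
  · intro α β hα hβ h0
    by_contra hall
    push Not at hall
    obtain ⟨k, hk⟩ := comb_ne_zero hC x y hn hD α β h0
    have h1 : ∀ u : F →+* ℂ, nu F E ρ (α • x + β • y) u < μ / 2 := by
      intro u
      haveI := hne u
      obtain ⟨i, hi'⟩ := exists_nu ρ (α • x + β • y) u
      rw [hi', div_lt_iff₀ (hρ _)]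
      have := hall i.1
      linarith
    have h2 : ∏ u : F →+* ℂ, nu F E ρ (α • x + β • y) u < ∏ u : F →+* ℂ, (μ / 2) := by
      refine Finset.prod_lt_prod_of_nonempty (fun u _ => nu_pos ρ hρ _ u k hk) (fun u _ => h1 u) ?_
      exact Finset.univ_nonempty
    rw [Finset.prod_const, Finset.card_univ, hdcard] at h2
    have h3 := hmin α β hα hβ h0
    have h4 : (μ / 2) ^ d ≤ N₀ / 2 := by
      rw [← hm, div_pow]
      have h5 : μ ^ d ≤ m ^ d := pow_le_pow_left₀ hμ0.le hμm d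
      have h6 : (2 : ℝ) ≤ 2 ^ d := by
        calc (2 : ℝ) = 2 ^ 1 := (pow_one _).symm
          _ ≤ 2 ^ d := pow_le_pow_right₀ (by norm_num) hd0
      exact div_le_div₀ (pow_pos hm0 _).le h5 (by norm_num) h6
    linarith

end Pool.Agent.K1H60.DF
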