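import Pool.Agent.K1H88.DF.Stm

/-! Project DF, piece RED1, part 1: the norm of a vector of `∏ E k` above an embedding of `F`. -/

set_option autoImplicit false
set_option linter.unusedSectionVars false
set_option linter.style.haveILetI false
set_option linter.unusedVariables false

namespace Pool.Agent.K1H60.DF

open Module NumberField
open Pool.Agent.K1H88 (DP.Emb DP.cont DP.pl)
open Pool.Agent.K1H88.DF

section general
variable {F : Type} [Field F] [NumberField F]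

theorem prod_norm_eq (e : F) : ∏ σ : F →+* ℂ, ‖σ e‖ = |((Algebra.norm ℚ e : ℚ) : ℝ)| := by
  have h := Algebra.norm_eq_prod_embeddings ℚ ℂ e
  have h2 : ∏ σ : F →+* ℂ, ‖σ e‖ = ∏ σ : F →ₐ[ℚ] ℂ, ‖σ e‖ := by
    refine Fintype.prod_equiv (RingHom.equivRatAlgHom F ℂ) _ _ (fun σ => ?_)
    rfl
  rw [h2, ← norm_prod, ← h]
  simp

theorem one_le_prod_norm (e : F) (he : IsIntegral ℤ e) (h0 : e ≠ 0) :
    1 ≤ ∏ σ : F →+* ℂ, ‖σ e‖ := by
  rw [prod_norm_eq]
  have h1 : IsIntegral ℤ (Algebra.norm ℚ e) := Algebra.isIntegral_norm ℚ he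
  obtain ⟨m, hm⟩ := IsIntegrallyClosed.isIntegral_iff.1 h1
  have h2 : Algebra.norm ℚ e ≠ 0 := Algebra.norm_ne_zero_iff.2 h0
  have h3 : m ≠ 0 := by
    rintro rfl
    apply h2
    rw [← hm]
    simp
  rw [← hm]
  have h4 : (1 : ℤ) ≤ |m| := Int.one_le_abs h3
  have h5 : ((algebraMap ℤ ℚ m : ℚ) : ℝ) = (m : ℝ) := by simp
  rw [h5, ← Int.cast_abs]
  exact_mod_cast h4

open Classical in
/-- number of the extensions of an embedding -/
theorem card_above {L : Type} [Field L] [NumberField L] [Algebra F L] (u : F →+* ℂ) :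
    (Finset.univ.filter (fun s : L →+* ℂ => s.comp (algebraMap F L) = u)).card = finrank F L := by
  classical
  letI : Algebra F ℂ := u.toAlgebra
  haveI : FiniteDimensional F L := Module.Finite.right ℚ F L
  rw [← AlgHom.card F L ℂ, ← Fintype.card_coe]
  refine Fintype.card_congr ⟨fun s => ⟨s.1, fun a => ?_⟩, fun s => ⟨s.toRingHom, ?_⟩, fun s => ?_, fun s => ?_⟩
  · have h := (Finset.mem_filter.1 s.2).2
    exact congrArg (fun f => f a) h
  · rw [Finset.mem_filter]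
    exact ⟨Finset.mem_univ _, RingHom.ext fun a => s.commutes a⟩
  · rfl
  · rfl

end general

section nu
variable (F : Type) [Field F] [NumberField F] {ι : Type} [Fintype ι] (E : ι → Type)
  [∀ k, Field (E k)] [∀ k, NumberField (E k)] [∀ k, Algebra F (E k)]

/-- the norm above `u` -/
noncomputable def nu (ρ : ι → ℝ) (z : ∀ k, E k) (u : F →+* ℂ) : ℝ :=
  ⨆ i : EmbU F E u, ‖i.1.2 (z i.1.1)‖ / ρ i.1.1

variable {F E}

theorem le_nu (ρ : ι → ℝ) (z : ∀ k, E k) (u : F →+* ℂ) (i : EmbU F E u) :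
    ‖i.1.2 (z i.1.1)‖ / ρ i.1.1 ≤ nu F E ρ z u :=
  le_ciSup (f := fun i : EmbU F E u => ‖i.1.2 (z i.1.1)‖ / ρ i.1.1) (Set.finite_range _).bddAbove i

theorem le_nu' (ρ : ι → ℝ) (hρ : ∀ k, 0 < ρ k) (z : ∀ k, E k) (u : F →+* ℂ) (i : EmbU F E u) :
    ‖i.1.2 (z i.1.1)‖ ≤ nu F E ρ z u * ρ i.1.1 := by
  have h := le_nu ρ z u i
  rwa [div_le_iff₀ (hρ _)] at h

theorem nu_nonneg (ρ : ι → ℝ) (hρ : ∀ k, 0 < ρ k) (z : ∀ k, E k) (u : F →+* ℂ) :
    0 ≤ nu F E ρ z u :=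
  Real.iSup_nonneg fun i => div_nonneg (norm_nonneg _) (hρ _).le

theorem exists_nu (ρ : ι → ℝ) (z : ∀ k, E k) (u : F →+* ℂ) [Nonempty (EmbU F E u)] :
    ∃ i : EmbU F E u, nu F E ρ z u = ‖i.1.2 (z i.1.1)‖ / ρ i.1.1 := by
  obtain ⟨i, hi⟩ := exists_eq_ciSup_of_finite
    (f := fun i : EmbU F E u => ‖i.1.2 (z i.1.1)‖ / ρ i.1.1)
  exact ⟨i, hi.symm⟩

theorem nu_conj_le (ρ : ι → ℝ) (z : ∀ k, E k) (u : F →+* ℂ) (hne : Nonempty (EmbU F E u)) :
    nu F E ρ z u ≤ nu F E ρ z (ComplexEmbedding.conjugate u) := by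
  refine ciSup_le fun i => ?_
  have h : (ComplexEmbedding.conjugate i.1.2).comp (algebraMap F (E i.1.1)) =
      ComplexEmbedding.conjugate u := by
    ext a
    have h2 := congrArg (fun f => (starRingEnd ℂ) (f a)) i.2
    exact h2
  have h3 := le_nu ρ z (ComplexEmbedding.conjugate u)
    ⟨⟨i.1.1, ComplexEmbedding.conjugate i.1.2⟩, h⟩
  have h4 : ‖ComplexEmbedding.conjugate i.1.2 (z i.1.1)‖ = ‖i.1.2 (z i.1.1)‖ :=
    RCLike.norm_conj _
  change ‖ComplexEmbedding.conjugate i.1.2 (z i.1.1)‖ / ρ i.1.1 ≤ _ at h3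
  rwa [h4] at h3

theorem nu_conj (ρ : ι → ℝ) (z : ∀ k, E k) (u : F →+* ℂ) (hne : ∀ v : F →+* ℂ, Nonempty (EmbU F E v)) :
    nu F E ρ z (ComplexEmbedding.conjugate u) = nu F E ρ z u := by
  apply le_antisymm
  · have h := nu_conj_le ρ z (ComplexEmbedding.conjugate u) (hne _)
    have h2 : ComplexEmbedding.conjugate (ComplexEmbedding.conjugate u) = u := by
      ext a
      exact Complex.conj_conj (u a)
    rwa [h2] at h
  · exact nu_conj_le ρ z u (hne u)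

theorem nu_smul (ρ : ι → ℝ) (e : F) (z : ∀ k, E k) (u : F →+* ℂ) :
    nu F E ρ (e • z) u = ‖u e‖ * nu F E ρ z u := by
  unfold nu
  rw [Real.mul_iSup_of_nonneg (norm_nonneg _)]
  refine congrArg iSup (funext fun i => ?_)
  have h : i.1.2 ((e • z) i.1.1) = u e * i.1.2 (z i.1.1) := by
    rw [Pi.smul_apply, Algebra.smul_def, map_mul]
    congr 1
    exact congrArg (fun f => f e) i.2
  rw [h, norm_mul, mul_div_assoc]

theorem nu_pos (ρ : ι → ℝ) (hρ : ∀ k, 0 < ρ k) (z : ∀ k, E k) (u : F →+* ℂ) (k : ι)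
    (hk : z k ≠ 0) : 0 < nu F E ρ z u := by
  classical
  have h1 := card_above (F := F) (L := E k) u
  haveI : FiniteDimensional F (E k) := Module.Finite.right ℚ F (E k)
  have h2 : 0 < finrank F (E k) := finrank_pos
  rw [← h1, Finset.card_pos] at h2
  obtain ⟨s, hs⟩ := h2
  have h3 := (Finset.mem_filter.1 hs).2
  have h4 := le_nu ρ z u ⟨⟨k, s⟩, h3⟩
  refine lt_of_lt_of_le ?_ h4
  refine div_pos (norm_pos_iff.2 ?_) (hρ _)
  exact (map_ne_zero s).2 hk

theorem one_le_nu (ρ : ι → ℝ) (hρ : ∀ k, 0 < ρ k) (z : ∀ k, E k) (k : ι)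
    (hk : z k ≠ 0) (hi : IsIntegral ℤ (z k)) :
    1 ≤ (∏ u : F →+* ℂ, nu F E ρ z u) * ρ k ^ (Fintype.card (F →+* ℂ)) := by
  classical
  haveI : FiniteDimensional F (E k) := Module.Finite.right ℚ F (E k)
  have h1 := one_le_prod_norm (z k) hi hk
  rw [← Finset.prod_fiberwise Finset.univ
    (fun s : E k →+* ℂ => s.comp (algebraMap F (E k))) (fun s => ‖s (z k)‖)] at h1
  have h2 : ∀ u : F →+* ℂ, ∏ s ∈ Finset.univ.filter
      (fun s : E k →+* ℂ => s.comp (algebraMap F (E k)) = u), ‖s (z k)‖ ≤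
      (nu F E ρ z u * ρ k) ^ finrank F (E k) := by
    intro u
    rw [← card_above (F := F) (L := E k) u]
    rw [← Finset.prod_const]
    refine Finset.prod_le_prod (fun s _ => norm_nonneg _) fun s hs => ?_
    exact le_nu' ρ hρ z u ⟨⟨k, s⟩, (Finset.mem_filter.1 hs).2⟩
  have h3 : 1 ≤ ∏ u : F →+* ℂ, (nu F E ρ z u * ρ k) ^ finrank F (E k) :=
    h1.trans (Finset.prod_le_prod (fun u _ => Finset.prod_nonneg fun s _ => norm_nonneg _)
      fun u _ => h2 u)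
  rw [Finset.prod_pow, Finset.prod_mul_distrib, Finset.prod_const, Finset.card_univ] at h3
  by_contra hlt
  rw [not_le] at hlt
  have h4 : 0 ≤ (∏ u : F →+* ℂ, nu F E ρ z u) * ρ k ^ (Fintype.card (F →+* ℂ)) :=
    mul_nonneg (Finset.prod_nonneg fun u _ => nu_nonneg ρ hρ z u) (pow_nonneg (hρ k).le _)
  have h5 := pow_lt_one₀ h4 hlt (finrank_pos (R := F) (M := E k)).ne'
  linarith

end nu

end Pool.Agent.K1H60.DF
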